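import Pool.Agent.Helper27.PzCrit

set_option autoImplicit false

namespace Pool.Agent.Results.MP_cb732f_ag.Criterion

open MvPolynomial Pool.Agent.Helper27.Pz

/-- A necessary and sufficient condition for the weak Lefschetz property of the algebra of
`F = X_0 p_0 + ⋯ + X_n p_n + G`, in terms of `I = Ann(p_0, …, p_n) ⊆ K[u_1, …, u_m]` and `G`. -/
theorem result {K : Type*} [Field K] [CharZero K] {n m d : ℕ} (hd : 3 ≤ d)
    (p : Fin (n + 1) → MvPolynomial (Fin m) K) (hp : ∀ j, (p j).IsHomogeneous (d - 1))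
    (G : MvPolynomial (Fin m) K) (hG : G.IsHomogeneous d) :
    HasWLP (perazzo p G) ↔
      ∃ (lam : MvPolynomial (Fin m) K) (c : Fin (n + 1) → K), lam.IsHomogeneous 1 ∧
        LevelSurj p lam (d / 2) ∧ CondPair p G lam c (d - 1 - d / 2) (d / 2) :=
  wlp_iff' hd hp hG

end Pool.Agent.Results.MP_cb732f_ag.Criterion
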