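import Pool.Agent.Helper27.PzCrit

set_option autoImplicit false

namespace Pool.Agent.Results.MP_cb732f_ag.GeneralG

open MvPolynomial Pool.Agent.Helper27.Pz

/-- For given `p_0, …, p_n` put `B = K[u] ⧸ Ann(p_0, …, p_n)` and `s = ⌊d/2⌋`. If the algebra of
`F = X_0 p_0 + ⋯ + X_n p_n + G` has the weak Lefschetz property for one `G`, then some linear
form `λ` gives a surjection `B_s → B_(s+1)`; and if there is such a `λ`, then the algebra of `F`
has the weak Lefschetz property for all `G` in a nonempty Zariski open set. -/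
theorem result {K : Type*} [Field K] [CharZero K] {n m d : ℕ} (hm : 1 ≤ m) (hd : 3 ≤ d)
    (p : Fin (n + 1) → MvPolynomial (Fin m) K) (hp : ∀ j, (p j).IsHomogeneous (d - 1)) :
    (∀ G : MvPolynomial (Fin m) K, G.IsHomogeneous d → HasWLP (perazzo p G) →
      ∃ lam : MvPolynomial (Fin m) K, lam.IsHomogeneous 1 ∧ LevelSurj p lam (d / 2)) ∧
    ((∃ lam : MvPolynomial (Fin m) K, lam.IsHomogeneous 1 ∧ LevelSurj p lam (d / 2)) →
      ∃ Δ : MvPolynomial (Fin m →₀ ℕ) K,
        (∃ G : MvPolynomial (Fin m) K, G.IsHomogeneous d ∧ eval (fun a => coeff a G) Δ ≠ 0) ∧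
        ∀ G : MvPolynomial (Fin m) K, G.IsHomogeneous d → eval (fun a => coeff a G) Δ ≠ 0 →
          HasWLP (perazzo p G)) := by
  constructor
  · intro G hG h
    obtain ⟨lam, c, hlam, h1, -⟩ := (wlp_iff' hd hp hG).1 h
    exact ⟨lam, hlam, h1⟩
  · rintro ⟨lam, hlam, h⟩
    have : Nonempty (Fin m) := ⟨⟨0, hm⟩⟩
    have e1 : d - 1 = (d - 2 - d / 2) + (d / 2 + 1) := by omega
    exact general_wlp hd hp
      ⟨lam, hlam, (injOnDerivs_iff (k := d - 2 - d / 2) hlam (by rwa [← e1])).2 h⟩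

end Pool.Agent.Results.MP_cb732f_ag.GeneralG
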