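import Pool.Agent.Helper27.PzDim

set_option autoImplicit false

namespace Pool.Agent.Results.MP_cb732f_ag.ManyDerivatives

open MvPolynomial Pool.Agent.Helper27.Pz

/-- Let `s = ⌊d/2⌋`, let `D` be the space spanned by the partial derivatives of degree `s + 1` of
`p_0, …, p_n`, and `B = K[u] ⧸ Ann(p_0, …, p_n)`. If `dim D > dim K[U]_s - m` (`d` even), or
`dim D ≥ dim K[U]_s` (`d` odd), then for every `G` the algebra of
`F = X_0 p_0 + ⋯ + X_n p_n + G` has the weak Lefschetz property if and only if some linear form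
`λ` gives a surjection `B_s → B_(s+1)`. -/
theorem result {K : Type*} [Field K] [CharZero K] {n m d : ℕ} (hm : 1 ≤ m) (hd : 3 ≤ d)
    (p : Fin (n + 1) → MvPolynomial (Fin m) K) (hp : ∀ j, (p j).IsHomogeneous (d - 1))
    (hD : (m + d / 2 - 1).choose (m - 1) <
      Module.finrank K (derivs p (d - 2 - d / 2)) + (if Even d then m else 1))
    (G : MvPolynomial (Fin m) K) (hG : G.IsHomogeneous d) :
    HasWLP (perazzo p G) ↔
      ∃ lam : MvPolynomial (Fin m) K, lam.IsHomogeneous 1 ∧ LevelSurj p lam (d / 2) := by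
  refine wlp_iff_of_large hd hp ?_ hG
  rw [finrank_hom hm, finrank_hom hm]
  refine lt_of_lt_of_eq hD ?_
  congr 1
  split_ifs with h
  · obtain ⟨s, hs⟩ := h
    rw [show 2 * (d / 2) + 1 - d = 1 by omega, show m + 1 - 1 = (m - 1) + 1 by omega,
      Nat.choose_succ_self_right]
    omega
  · rw [Nat.not_even_iff_odd] at h
    obtain ⟨s, hs⟩ := h
    rw [show 2 * (d / 2) + 1 - d = 0 by omega, add_zero, Nat.choose_self]

end Pool.Agent.Results.MP_cb732f_ag.ManyDerivatives
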