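import Pool.Agent.Helper27.PzAll

set_option autoImplicit false

namespace Pool.Agent.Results.MP_cb732f_ag.GeneralForm

open MvPolynomial Pool.Agent.Helper27.Pz

/-- The weak Lefschetz property of a general Perazzo form of degree `d ≥ 3`, `n ≥ m ≥ 2`: for
general `p_0, …, p_n` and every `G` it holds if and only if `d = 2 s` is even and
`(n + 1) s (s - 1) ≤ (m + s - 1) (m + s - 2)`. -/
theorem result {K : Type*} [Field K] [CharZero K] {n m d : ℕ} (hm : 2 ≤ m) (hnm : m ≤ n)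
    (hd : 3 ≤ d) (hn : n + 1 ≤ (d + m - 2).choose (m - 1)) :
    ∃ Δ : MvPolynomial (Fin (n + 1) × (Fin m →₀ ℕ)) K,
      (∃ p : Fin (n + 1) → MvPolynomial (Fin m) K, (∀ j, (p j).IsHomogeneous (d - 1)) ∧
        eval (fun t => coeff t.2 (p t.1)) Δ ≠ 0) ∧
      ∀ p : Fin (n + 1) → MvPolynomial (Fin m) K, (∀ j, (p j).IsHomogeneous (d - 1)) →
        eval (fun t => coeff t.2 (p t.1)) Δ ≠ 0 →
        LinearIndependent K p ∧ ¬ AlgebraicIndependent K p ∧
        ∀ G : MvPolynomial (Fin m) K, G.IsHomogeneous d →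
          (HasWLP (perazzo p G) ↔ Even d ∧
            (n + 1) * (d / 2 * (d / 2 - 1)) ≤ (m + d / 2 - 1) * (m + d / 2 - 2)) :=
  (general_perazzo hm hnm hd hn).exists

end Pool.Agent.Results.MP_cb732f_ag.GeneralForm
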